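import Pool.Agent.H83.UE.Targets2

/-!
MP_75a732_an, row CO2: the marginals (helper37).
-/

set_option autoImplicit false

open Polynomial MeasureTheory Filter Topology Set
open scoped OnePoint ComplexConjugate ComplexOrder Laplacian ENNReal Nat

namespace Pool.Agent.H37.UDA

open Pool.Agent.H83.UE

/-- two functions with the same multiset of values differ by a permutation -/
theorem exists_perm {k : ℕ} {z z₀ : Fin k → ℂ}
    (h : Finset.univ.val.map z = Finset.univ.val.map z₀) :
    ∃ π : Equiv.Perm (Fin k), z₀ ∘ π = z := by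
  classical
  have hc : ∀ y : ℂ, Fintype.card {a // z a = y} = Fintype.card {a // z₀ a = y} := by
    intro y
    have h1 := congrArg (Multiset.count y) h
    rw [Multiset.count_map, Multiset.count_map] at h1
    rw [Fintype.card_subtype, Fintype.card_subtype]
    have e1 : ∀ f : Fin k → ℂ, (Finset.univ.filter fun a => f a = y).card =
        Multiset.card (Multiset.filter (fun a => y = f a) Finset.univ.val) := by
      intro f
      rw [Finset.card_def, Finset.filter_val]
      congr 1
      exact Multiset.filter_congr fun a _ => eq_comm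
    rw [e1, e1]
    exact h1
  let e : ∀ y : ℂ, {a // z a = y} ≃ {a // z₀ a = y} := fun y => Fintype.equivOfCardEq (hc y)
  refine ⟨(Equiv.sigmaFiberEquiv z).symm.trans
    ((Equiv.sigmaCongrRight e).trans (Equiv.sigmaFiberEquiv z₀)), ?_⟩
  funext a
  exact (e (z a) ⟨a, rfl⟩).2

/-- the number of permutations with prescribed values on `J` -/
theorem card_ext {k : ℕ} (J : Finset (Fin k)) (f : {j // j ∈ J} → Fin k)
    (hf : Function.Injective f) :
    Nat.card {π : Equiv.Perm (Fin k) // ∀ j : {j // j ∈ J}, π j.1 = f j} = (k - J.card)! := by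
  classical
  obtain ⟨π₀, hπ₀⟩ := Equiv.Perm.exists_extending_pair (fun j : {j // j ∈ J} => j.1) f
    Subtype.val_injective hf
  have e1 : {π : Equiv.Perm (Fin k) // ∀ j : {j // j ∈ J}, π j.1 = f j} ≃
      {σ : Equiv.Perm (Fin k) // ∀ a, ¬ (a ∉ J) → σ a = a} :=
    { toFun := fun π => ⟨π₀⁻¹ * π.1, fun a ha => by
        rw [not_not] at ha
        rw [Equiv.Perm.mul_apply, π.2 ⟨a, ha⟩, Equiv.Perm.inv_eq_iff_eq]
        exact (hπ₀ ⟨a, ha⟩).symm⟩
      invFun := fun σ => ⟨π₀ * σ.1, fun j => by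
        rw [Equiv.Perm.mul_apply, σ.2 j.1 (not_not.2 j.2)]
        exact hπ₀ j⟩
      left_inv := fun π => by
        apply Subtype.ext
        simp
      right_inv := fun σ => by
        apply Subtype.ext
        simp }
  rw [Nat.card_congr e1,
    Nat.card_congr (Equiv.Perm.subtypeEquivSubtypePerm (fun a => a ∉ J)).symm,
    Nat.card_eq_fintype_card, Fintype.card_perm, Fintype.card_subtype_compl, Fintype.card_fin]
  congr 2
  simp

/-- the number of permutations which put given values at the places of `J` -/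
theorem card_A {k : ℕ} (J : Finset (Fin k)) (z₀ : Fin k → ℂ) (ζ : {j // j ∈ J} → ℂ)
    (hζ : Function.Injective ζ) :
    Nat.card {π : Equiv.Perm (Fin k) // ∀ j : {j // j ∈ J}, z₀ (π j.1) = ζ j} =
      (k - J.card)! * ∏ j, Nat.card {a // z₀ a = ζ j} := by
  classical
  have e1 : {π : Equiv.Perm (Fin k) // ∀ j : {j // j ∈ J}, z₀ (π j.1) = ζ j} ≃
      Σ f : (∀ j : {j // j ∈ J}, {a // z₀ a = ζ j}),
        {π : Equiv.Perm (Fin k) // ∀ j : {j // j ∈ J}, π j.1 = (f j).1} :=
    { toFun := fun π => ⟨fun j => ⟨π.1 j.1, π.2 j⟩, ⟨π.1, fun _ => rfl⟩⟩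
      invFun := fun p => ⟨p.2.1, fun j => by
        rw [p.2.2 j]
        exact (p.1 j).2⟩
      left_inv := fun π => rfl
      right_inv := by
        have key : ∀ (g : {j // j ∈ J} → Fin k) (hg : ∀ j, z₀ (g j) = ζ j)
            (π : Equiv.Perm (Fin k)) (hπ : ∀ j : {j // j ∈ J}, π j.1 = g j),
            (⟨fun j => ⟨π j.1, by rw [hπ j]; exact hg j⟩, ⟨π, fun _ => rfl⟩⟩ :
              Σ f : (∀ j : {j // j ∈ J}, {a // z₀ a = ζ j}),
              {π : Equiv.Perm (Fin k) // ∀ j : {j // j ∈ J}, π j.1 = (f j).1}) =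
            ⟨fun j => ⟨g j, hg j⟩, ⟨π, hπ⟩⟩ := by
          intro g hg π hπ
          obtain rfl : (fun j : {j // j ∈ J} => π j.1) = g := funext hπ
          rfl
        intro p
        exact key (fun j => (p.1 j).1) (fun j => (p.1 j).2) p.2.1 p.2.2 }
  rw [Nat.card_congr e1, Nat.card_sigma]
  have h2 : ∀ f : (∀ j : {j // j ∈ J}, {a // z₀ a = ζ j}),
      Nat.card {π : Equiv.Perm (Fin k) // ∀ j : {j // j ∈ J}, π j.1 = (f j).1} =
        (k - J.card)! := by
    intro f
    apply card_ext J (fun j => (f j).1)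
    intro i j hij
    apply hζ
    have h3 : (f i).1 = (f j).1 := hij
    rw [← (f i).2, ← (f j).2, h3]
  rw [Finset.sum_congr rfl fun f _ => h2 f, Finset.sum_const, Finset.card_univ, smul_eq_mul,
    mul_comm]
  congr 1
  rw [← Nat.card_eq_fintype_card, Nat.card_pi]

/-- the number of permutations which transform a tuple in itself -/
theorem card_stab {k : ℕ} (z : Fin k → ℂ) :
    Nat.card {π : Equiv.Perm (Fin k) // z ∘ π = z} = stab (Finset.univ.val.map z) := by
  classical
  rw [Nat.card_eq_fintype_card, DomMulAct.stabilizer_card' z]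
  unfold stab
  have h1 : (Multiset.map z Finset.univ.val).toFinset = Finset.univ.image z := rfl
  rw [h1]
  refine Finset.prod_congr rfl fun y _ => ?_
  congr 1
  rw [Fintype.card_subtype, Multiset.count_map, Finset.card_def, Finset.filter_val]
  congr 1
  exact Multiset.filter_congr fun a _ => eq_comm

/-- the sum over the tuples with given coefficients and given values at the places of `J` -/
theorem sum_fib (h1 : T_MON) {k : ℕ} (J : Finset (Fin k)) (ζ : {j // j ∈ J} → ℂ)
    (hζ : Function.Injective ζ) (w : Fin k → ℂ) (S : Finset (Fin k → ℂ))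
    (hS : ∀ z, z ∈ S ↔ coef z = w ∧ ∀ j, z j.1 = ζ j) :
    ∑ z ∈ S, stab (Finset.univ.val.map z) =
      (k - J.card)! * ∏ j, (mon w).rootMultiplicity (ζ j) := by
  classical
  obtain ⟨-, hroots, hex, -⟩ := h1 k
  obtain ⟨z₀, hz₀⟩ := hex w
  have hr0 : (mon w).roots = Finset.univ.val.map z₀ := by
    rw [← hz₀]
    exact (hroots z₀).2
  have hm : ∀ j, (mon w).rootMultiplicity (ζ j) = Nat.card {a // z₀ a = ζ j} := by
    intro j
    rw [← Polynomial.count_roots, hr0, Multiset.count_map, Nat.card_eq_fintype_card,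
      Fintype.card_subtype, Finset.card_def, Finset.filter_val]
    congr 1
    exact Multiset.filter_congr fun a _ => eq_comm
  rw [Finset.prod_congr rfl fun j _ => hm j, ← card_A J z₀ ζ hζ, Nat.card_eq_fintype_card,
    Fintype.card_subtype]
  rw [Finset.card_eq_sum_card_fiberwise (f := fun π : Equiv.Perm (Fin k) => z₀ ∘ π) (t := S)]
  · refine Finset.sum_congr rfl fun z hz => ?_
    obtain ⟨hz1, hz2⟩ := (hS z).1 hz
    have hzz : Finset.univ.val.map z = Finset.univ.val.map z₀ := by
      rw [← hr0, ← hz1]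
      exact (hroots z).2.symm
    obtain ⟨π₁, hπ₁⟩ := exists_perm hzz
    rw [← card_stab z, Nat.card_eq_fintype_card, Fintype.card_subtype]
    refine Finset.card_bij (fun π _ => π₁ * π) ?_ ?_ ?_
    · intro π hπ
      rw [Finset.mem_filter] at hπ
      have h3 : z₀ ∘ (π₁ * π : Equiv.Perm (Fin k)) = z := by
        have h4 : z₀ ∘ (π₁ * π : Equiv.Perm (Fin k)) = (z₀ ∘ π₁) ∘ π := rfl
        rw [h4, hπ₁]
        exact hπ.2
      rw [Finset.mem_filter, Finset.mem_filter]
      refine ⟨⟨Finset.mem_univ _, fun j => ?_⟩, h3⟩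
      have h5 := congrFun h3 j.1
      rw [Function.comp_apply] at h5
      rw [h5]
      exact hz2 j
    · intro π _ π' _ h
      exact mul_left_cancel h
    · intro π hπ
      rw [Finset.mem_filter] at hπ
      refine ⟨π₁⁻¹ * π, ?_, by simp⟩
      rw [Finset.mem_filter]
      refine ⟨Finset.mem_univ _, ?_⟩
      have h4 : z ∘ (π₁⁻¹ * π : Equiv.Perm (Fin k)) =
          z₀ ∘ (π₁ * (π₁⁻¹ * π) : Equiv.Perm (Fin k)) := by
        rw [← hπ₁]
        rfl
      rw [h4, mul_inv_cancel_left]
      exact hπ.2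
  · intro π hπ
    rw [Finset.mem_coe, Finset.mem_filter] at hπ
    rw [Finset.mem_coe, hS]
    refine ⟨?_, fun j => hπ.2 j⟩
    rw [← hz₀]
    funext i
    unfold coef
    congr 1
    exact Equiv.prod_comp π (fun l => X - C (z₀ l))

theorem pf_CO2 (h1 : T_MON) : T_CO2 := by
  classical
  intro k m hmk V J ζ hζ hfin
  obtain ⟨-, hroots, hex, hfib, -⟩ := h1 k
  have hroot : ∀ z : Fin k → ℂ, (∀ j, z j.1 = ζ j) → ∀ j, (mon (coef z)).IsRoot (ζ j) := by
    intro z hz j
    have h2 : (mon (coef z)) ≠ 0 := ((h1 k).1 (coef z)).1.ne_zero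
    rw [← Polynomial.mem_roots h2, (hroots z).2, ← hz j]
    exact Multiset.mem_map_of_mem z (Finset.mem_univ_val _)
  have hF : {z : Fin k → ℂ | coef z ∈ V ∧ ∀ j, z j.1 = ζ j}.Finite := by
    refine (hfin.biUnion fun w _ => (hfib w).1).subset ?_
    rintro z ⟨hz1, hz2⟩
    rw [Set.mem_iUnion₂]
    exact ⟨coef z, ⟨hz1, hroot z hz2⟩, rfl⟩
  refine ⟨hF, ?_⟩
  rw [finsum_mem_eq_finite_toFinset_sum _ hF, finsum_mem_eq_finite_toFinset_sum _ hfin,
    Finset.mul_sum]
  rw [← Finset.sum_fiberwise_of_maps_to (s := hF.toFinset) (t := hfin.toFinset) (g := coef)]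
  · refine Finset.sum_congr rfl fun w hw => ?_
    rw [Set.Finite.mem_toFinset] at hw
    have := sum_fib h1 J.1 ζ hζ w (hF.toFinset.filter fun z => coef z = w) (by
      intro z
      rw [Finset.mem_filter, Set.Finite.mem_toFinset]
      constructor
      · rintro ⟨⟨_, h3⟩, h4⟩
        exact ⟨h4, h3⟩
      · rintro ⟨h3, h4⟩
        refine ⟨⟨?_, h4⟩, h3⟩
        rw [h3]
        exact hw.1)
    rw [J.2] at this
    exact this
  · intro z hz
    rw [Set.Finite.mem_toFinset] at hz
    rw [Set.Finite.mem_toFinset]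
    exact ⟨hz.1, hroot z hz.2⟩

end Pool.Agent.H37.UDA
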