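import Pool.Agent.H83.UE.Targets2

/-!
MP_75a732_an, row TF: the inverse image of a test form is a test form (helper37).
-/

set_option autoImplicit false

open Polynomial MeasureTheory Filter Topology Set
open scoped OnePoint ComplexConjugate ComplexOrder Laplacian ENNReal Nat

namespace Pool.Agent.H37.UDA

open Pool.Agent.H83.UE

theorem coef_smooth_aux {k : ℕ} (s : Finset (Fin k)) :
    ∀ i : ℕ, ContDiff ℂ ⊤ fun z : Fin k → ℂ => (∏ l ∈ s, (X - C (z l))).coeff i := by
  classical
  induction s using Finset.induction_on with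
  | empty =>
    intro i
    simp only [Finset.prod_empty]
    exact contDiff_const
  | insert a s ha ih =>
    intro i
    have hp : ContDiff ℂ ⊤ fun z : Fin k → ℂ => z a := contDiff_apply ℂ ℂ a
    rcases i with _ | i
    · have h1 : (fun z : Fin k → ℂ => (∏ l ∈ insert a s, (X - C (z l))).coeff 0) =
          fun z => -(z a * (∏ l ∈ s, (X - C (z l))).coeff 0) := by
        funext z
        rw [Finset.prod_insert ha, sub_mul, coeff_sub, coeff_C_mul, mul_coeff_zero, coeff_X_zero]
        ring
      rw [h1]
      exact (hp.mul (ih 0)).neg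
    · have h1 : (fun z : Fin k → ℂ => (∏ l ∈ insert a s, (X - C (z l))).coeff (i + 1)) =
          fun z => (∏ l ∈ s, (X - C (z l))).coeff i -
            z a * (∏ l ∈ s, (X - C (z l))).coeff (i + 1) := by
        funext z
        rw [Finset.prod_insert ha, sub_mul, coeff_sub, coeff_C_mul, coeff_X_mul]
      rw [h1]
      exact (ih i).sub (hp.mul (ih (i + 1)))

theorem coef_smooth (k : ℕ) : ContDiff ℂ ⊤ (coef : (Fin k → ℂ) → (Fin k → ℂ)) := by
  rw [contDiff_pi]
  intro i
  exact coef_smooth_aux Finset.univ i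

/-- a bound for the roots -/
theorem root_bound (h1 : T_MON) {k : ℕ} (z : Fin k → ℂ) (M : ℝ) (hM : ‖coef z‖ ≤ M) :
    ‖z‖ ≤ 1 + k * M := by
  have hM0 : 0 ≤ M := (norm_nonneg _).trans hM
  rw [pi_norm_le_iff_of_nonneg (by positivity)]
  intro l
  by_contra hcon
  rw [not_le] at hcon
  have hk : (0 : ℝ) ≤ k * M := by positivity
  have hx1 : 1 < ‖z l‖ := by linarith
  have hroot : (mon (coef z)).eval (z l) = 0 := by
    rw [((h1 k).2.1 z).1, eval_prod]
    exact Finset.prod_eq_zero (Finset.mem_univ l) (by simp)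
  unfold mon at hroot
  rw [eval_add, eval_pow, eval_X, eval_finsetSum] at hroot
  have h2 : z l ^ k = -∑ i : Fin k, coef z i * z l ^ (i : ℕ) := by
    rw [eq_neg_iff_add_eq_zero, ← hroot]
    congr 1
    refine Finset.sum_congr rfl fun i _ => ?_
    simp
  have hk1 : 1 ≤ k := (Nat.zero_le _).trans_lt l.2
  have h3 : ‖z l‖ ^ k ≤ k * M * ‖z l‖ ^ (k - 1) := by
    rw [← norm_pow, h2, norm_neg]
    refine (norm_sum_le _ _).trans ?_
    have h4 : ∀ i ∈ (Finset.univ : Finset (Fin k)), ‖coef z i * z l ^ (i : ℕ)‖ ≤
        M * ‖z l‖ ^ (k - 1) := by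
      intro i _
      rw [norm_mul, norm_pow]
      apply mul_le_mul ((norm_le_pi_norm _ i).trans hM) _ (by positivity) hM0
      exact pow_le_pow_right₀ hx1.le (by omega)
    refine (Finset.sum_le_sum h4).trans ?_
    rw [Finset.sum_const, Finset.card_univ, Fintype.card_fin, nsmul_eq_mul]
    linarith
  have h5 : ‖z l‖ ^ k = ‖z l‖ * ‖z l‖ ^ (k - 1) := by
    rw [← pow_succ']
    congr 1
    omega
  rw [h5] at h3
  have h6 := le_of_mul_le_mul_right h3 (by positivity)
  linarith

theorem pf_TF (h1 : T_MON) : T_TF := by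
  intro k m L χ I J hχ hχc
  have hL : ContDiff ℂ ⊤ fun x : Fin k → ℂ => L (coef x) :=
    (LinearMap.toContinuousLinearMap L).contDiff.comp (coef_smooth k)
  have hmin : ∀ I : Idx k m, Continuous (minor (fun x : Fin k → ℂ => L (coef x)) I) := by
    intro I
    unfold minor
    apply Continuous.matrix_det
    refine continuous_matrix fun i j => ?_
    exact (continuous_apply i).comp
      ((hL.continuous_fderiv (by simp)).clm_apply continuous_const)
  refine ⟨hL.differentiable (by simp), ?_, ?_⟩
  · unfold tform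
    exact (hχ.comp (coef_smooth k).continuous).mul
      ((hmin I).mul (Complex.continuous_conj.comp (hmin J)))
  · obtain ⟨M, hM⟩ := hχc.isCompact.isBounded.exists_norm_le
    refine HasCompactSupport.intro (isCompact_closedBall (0 : Fin k → ℂ) (1 + k * M)) ?_
    intro x hx
    unfold tform
    have h2 : χ (coef x) = 0 := by
      by_contra h3
      apply hx
      rw [Metric.mem_closedBall, dist_zero_right]
      exact root_bound h1 x M (hM _ (subset_tsupport _ h3))
    rw [h2, zero_mul]

end Pool.Agent.H37.UDA
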